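import Pool.Agent.Helper9.CC.Stm
import Pool.Agent.Helper90.FJ.Dual

set_option autoImplicit false

namespace Pool.Agent.Helper32.CC

open FF Module MvPolynomial Pool.Agent.Helper9.FJ Pool.Agent.Helper9.PP Pool.Agent.Helper9.CC

theorem eff (rrb : S_RRB) (sym : S_SYM) : S_EFF := by
  intro K _ _ _ l r E W hW hg hr j q n hn
  obtain ⟨P, -⟩ := exists_place (k := ℂ) (K := K)
  set N : Place ℂ K →₀ ℤ := Finsupp.single P n with hNdef
  have hN : ddeg N = n := Pool.Agent.Helper90.FJ.ddeg_single_one P n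
  obtain ⟨m, F, hm, hF, hs⟩ := sym (E j) q N (hr j)
  have hF0 : 0 ≤ ddeg F.detDiv := by
    have h1 : (0 : ℝ) ≤ (ddeg F.detDiv : ℝ) := by
      rw [hF, hN]
      exact mul_nonneg (Nat.cast_nonneg m) hn
    exact_mod_cast h1
  obtain ⟨N0, hN0, hv⟩ := rrb F W hW hg hm hF0
  obtain ⟨s, hs0, hs1, hs2⟩ := hs N0 hv
  let f : Fin (r j) → Vr r := fun i => ⟨j, i⟩
  have hf : Function.Injective f := fun a b h => by
    have := Sigma.mk.inj_iff.1 h
    exact eq_of_heq this.2
  refine ⟨N + N0, rename f s, by rw [ddeg_add, hN, hN0, add_zero], ?_, ?_, ?_⟩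
  · intro h
    exact hs0 (rename_injective f hf (by rw [h, map_zero]))
  · intro α hα j'
    obtain ⟨u, hu, hu'⟩ := coeff_rename_ne_zero f s α hα
    rw [← hu]
    by_cases hj : j' = j
    · subst hj
      rw [Pi.single_eq_same]
      have h1 : ∀ i, (Finsupp.mapDomain f u) (⟨j', i⟩ : Vr r) = u i := fun i =>
        Finsupp.mapDomain_apply hf u i
      rw [Finset.sum_congr rfl fun i _ => h1 i]
      have h2 := hs1 hu'
      rw [Finsupp.weight_apply, Finsupp.sum_fintype _ _ (fun _ => by simp)] at h2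
      simpa using h2
    · rw [Pi.single_eq_of_ne hj]
      refine Finset.sum_eq_zero fun i _ => ?_
      refine Finsupp.mapDomain_notin_range u _ ?_
      rintro ⟨i', hi'⟩
      exact hj (Sigma.mk.inj_iff.1 hi').1.symm
  · intro Q α
    have hloc : locM E Q (rename f s) = rename f (loc (E j) Q s) := by
      unfold locM loc
      rw [aeval_rename, ← AlgHom.comp_apply, comp_aeval]
      congr 2
      funext i
      simp only [Function.comp, map_sum, map_mul, rename_C, rename_X]
      rfl
    rw [hloc]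
    by_cases hα : ∃ u, Finsupp.mapDomain f u = α
    · obtain ⟨u, rfl⟩ := hα
      rw [coeff_rename_mapDomain f hf]
      exact hs2 Q u
    · left
      by_contra hcon
      obtain ⟨u, hu, -⟩ := coeff_rename_ne_zero f _ α hcon
      exact hα ⟨u, hu⟩

end Pool.Agent.Helper32.CC
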