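import Pool.Agent.Helper9.CC.Stm

set_option autoImplicit false

namespace Pool.Agent.Helper32.CC

open Pool.Agent.Helper9.CC

/-- the primitive generators -/
noncomputable def gv {l : ℕ} (μ : Fin l → ℚ) : Fin (l + 1) → NS l :=
  Fin.cons (0, 1) (fun j => (Pi.single j ((μ j).den : ℝ), (-(μ j).num : ℝ)))

lemma gv_zero {l : ℕ} (μ : Fin l → ℚ) : gv μ 0 = (0, 1) := rfl

lemma gv_succ {l : ℕ} (μ : Fin l → ℚ) (j : Fin l) :
    gv μ j.succ = (Pi.single j ((μ j).den : ℝ), (-(μ j).num : ℝ)) := rfl

lemma sum_fst {l : ℕ} (μ : Fin l → ℚ) (c : Fin (l + 1) → ℝ) (j : Fin l) :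
    (∑ i, c i • gv μ i).1 j = c j.succ * (μ j).den := by
  rw [Prod.fst_sum, Finset.sum_apply, Fin.sum_univ_succ]
  simp only [gv_zero, gv_succ, Prod.smul_fst, Pi.smul_apply, smul_eq_mul]
  rw [Finset.sum_eq_single j]
  · simp
  · intro b _ hb
    rw [Pi.single_eq_of_ne (Ne.symm hb), mul_zero]
  · intro h
    exact absurd (Finset.mem_univ _) h

lemma sum_snd {l : ℕ} (μ : Fin l → ℚ) (c : Fin (l + 1) → ℝ) :
    (∑ i, c i • gv μ i).2 = c 0 - ∑ j, c (Fin.succ j) * (μ j).num := by
  rw [Prod.snd_sum, Fin.sum_univ_succ]
  simp only [gv_zero, gv_succ, Prod.smul_snd, smul_eq_mul, mul_one, mul_neg,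
    Finset.sum_neg_distrib]
  ring

lemma den_mul {q : ℚ} : (q.den : ℝ) * (q : ℝ) = q.num := by
  have h := Rat.den_mul_eq_num q
  exact_mod_cast h

theorem genr : S_GENR := by
  intro l μ
  have hden : ∀ j, (0 : ℝ) < (μ j).den := fun j => by exact_mod_cast (μ j).den_pos
  refine ⟨gv μ, ?_, ?_, ?_, ?_, rfl, ?_⟩
  · rw [Fintype.linearIndependent_iff]
    intro g hg
    have h1 : ∀ j : Fin l, g j.succ = 0 := by
      intro j
      have h := sum_fst μ g j
      rw [hg] at h
      have h2 : (0 : ℝ) = g j.succ * (μ j).den := h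
      rcases mul_eq_zero.mp h2.symm with h3 | h3
      · exact h3
      · exact absurd h3 (hden j).ne'
    have h2 : g 0 = 0 := by
      have h := sum_snd μ g
      rw [hg] at h
      simp only [h1, zero_mul, Finset.sum_const_zero, sub_zero] at h
      exact h.symm
    intro i
    refine Fin.cases h2 h1 i
  · intro i
    refine Fin.cases ?_ (fun j => ?_) i
    · rw [gv_zero]
      exact ⟨fun j => ⟨0, by simp⟩, 1, by simp⟩
    · rw [gv_succ]
      refine ⟨fun k => ?_, -(μ j).num, by simp⟩
      by_cases hk : k = j
      · subst hk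
        exact ⟨(μ k).den, by simp⟩
      · exact ⟨0, by simp [Pi.single_eq_of_ne hk]⟩
  · intro i
    refine Fin.cases ?_ (fun j => ?_) i
    · intro c hc hmem
      rw [gv_zero] at hmem
      obtain ⟨-, n, hn⟩ := hmem
      have h1 : c = n := by simpa using hn
      rw [h1] at hc ⊢
      have h2 : 0 < n := by exact_mod_cast hc
      exact_mod_cast h2
    · intro c hc hmem
      rw [gv_succ] at hmem
      obtain ⟨h1, n, hn⟩ := hmem
      obtain ⟨m, hm⟩ := h1 j
      have h2 : c * (μ j).den = m := by simpa using hm
      have h3 : c * (-(μ j).num : ℝ) = n := by simpa using hn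
      have hcop : IsCoprime ((μ j).num) ((μ j).den : ℤ) := by
        rw [Int.isCoprime_iff_gcd_eq_one]
        have := (μ j).reduced
        rwa [Int.gcd, Int.natAbs_natCast]
      obtain ⟨u, w, huw⟩ := hcop
      have h4 : c = (-(u * n) + w * m : ℤ) := by
        have h5 : (u : ℝ) * (μ j).num + w * (μ j).den = 1 := by exact_mod_cast huw
        push_cast
        rw [← h2, ← h3]
        linear_combination (-c) * h5
      rw [h4] at hc ⊢
      have h6 : 0 < (-(u * n) + w * m : ℤ) := by exact_mod_cast hc
      exact_mod_cast h6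
  · ext x
    constructor
    · rintro ⟨n, c, v, hc, hv, rfl⟩
      have key : ∀ i, (∀ j, 0 ≤ (v i).1 j) ∧ 0 ≤ ∑ j, (v i).1 j * (μ j : ℝ) + (v i).2 := by
        intro i
        obtain ⟨k, hk⟩ := hv i
        rw [← hk]
        refine Fin.cases ?_ (fun j => ?_) k
        · rw [gv_zero]
          constructor
          · intro j; simp
          · simp
        · rw [gv_succ]
          constructor
          · intro j'
            by_cases h : j' = j
            · subst h; simp
            · simp [Pi.single_eq_of_ne h]
          · rw [Finset.sum_eq_single j]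
            · simp only [Pi.single_eq_same]
              rw [den_mul]
              simp
            · intro b _ hb
              simp only
              rw [Pi.single_eq_of_ne hb, zero_mul]
            · intro h
              exact absurd (Finset.mem_univ _) h
      constructor
      · intro j
        rw [Prod.fst_sum, Finset.sum_apply]
        refine Finset.sum_nonneg fun i _ => ?_
        exact mul_nonneg (hc i) ((key i).1 j)
      · have e : ∑ j, (∑ i, c i • v i).1 j * (μ j : ℝ) + (∑ i, c i • v i).2 =
            ∑ i, c i * (∑ j, (v i).1 j * (μ j : ℝ) + (v i).2) := by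
          simp only [Prod.fst_sum, Prod.snd_sum, Finset.sum_apply, Prod.smul_fst, Prod.smul_snd,
            Pi.smul_apply, smul_eq_mul, mul_add, Finset.sum_add_distrib, Finset.mul_sum,
            Finset.sum_mul]
          rw [Finset.sum_comm]
          congr 1
          refine Finset.sum_congr rfl fun i _ => Finset.sum_congr rfl fun j _ => by ring
        rw [e]
        exact Finset.sum_nonneg fun i _ => mul_nonneg (hc i) (key i).2
    · rintro ⟨h1, h2⟩
      refine ⟨l + 1, Fin.cons (∑ j, x.1 j * (μ j : ℝ) + x.2) (fun j => x.1 j / (μ j).den),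
        gv μ, ?_, fun i => ⟨i, rfl⟩, ?_⟩
      · intro i
        refine Fin.cases ?_ (fun j => ?_) i
        · exact h2
        · exact div_nonneg (h1 j) (hden j).le
      · refine Prod.ext ?_ ?_
        · funext j
          rw [sum_fst, Fin.cons_succ]
          field_simp [(hden j).ne']
        · rw [sum_snd, Fin.cons_zero]
          simp only [Fin.cons_succ]
          have e : ∀ j, x.1 j / ((μ j).den : ℝ) * ((μ j).num : ℝ) = x.1 j * (μ j : ℝ) := by
            intro j
            rw [← den_mul]
            field_simp [(hden j).ne']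
          simp only [e]
          ring
  · intro j
    refine ⟨(μ j).den, (μ j).den_pos, -(μ j).num, ?_, ?_⟩
    · push_cast
      rw [den_mul]
    · rw [gv_succ]
      push_cast
      rfl

end Pool.Agent.Helper32.CC
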